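import Pool.Agent.H51.FoxGeeseCert

/-! Checkers for the Fox and Geese certificates, evaluated by the kernel. -/

set_option autoImplicit false

namespace Pool.Agent.H51.FoxGeese

open KeyTree

/-- membership in a search tree -/
noncomputable def mem (x : ℕ) (t : KeyTree) : Bool :=
  KeyTree.rec (motive := fun _ => Bool) false
    (fun _ k _ il ir =>
      Bool.rec (motive := fun _ => Bool) il
        (Bool.rec (motive := fun _ => Bool) ir true (Nat.ble x k)) (Nat.ble k x)) t

/-- a predicate on all keys of a tree -/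
def allKeys (P : ℕ → Bool) : KeyTree → Bool
  | leaf => true
  | node l k r => P k && (allKeys P l && allKeys P r)

theorem allKeys_mem {P : ℕ → Bool} {t : KeyTree} (h : allKeys P t = true) {x : ℕ}
    (hx : mem x t = true) : P x = true := by
  induction t with
  | leaf => simp [mem] at hx
  | node l k r ihl ihr =>
    simp only [allKeys, Bool.and_eq_true] at h
    obtain ⟨hk, hl, hr⟩ := h
    have hx' : Bool.rec (motive := fun _ => Bool) (mem x l)
        (Bool.rec (motive := fun _ => Bool) (mem x r) true (Nat.ble x k)) (Nat.ble k x) = true := hx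
    cases h1 : Nat.ble k x with
    | false => rw [h1] at hx'; exact ihl hl hx'
    | true =>
      rw [h1] at hx'
      cases h2 : Nat.ble x k with
      | false =>
        have hx'' : Bool.rec (motive := fun _ => Bool) (mem x r) true (Nat.ble x k) = true := hx'
        rw [h2] at hx''; exact ihr hr hx''
      | true =>
        have : k = x := by
          have h1' := Nat.le_of_ble_eq_true h1
          have h2' := Nat.le_of_ble_eq_true h2
          omega
        rwa [← this]

/-- the bit `n` of `g` -/
def tb (g n : ℕ) : Bool := Nat.beq (Nat.land (Nat.shiftRight g n) 1) 1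

def key (l g f : ℕ) : ℕ := g + 18446744073709551616 * (f + 64 * l)

/-- some forward diagonal neighbour of `s` satisfies `P` -/
def anyUp (s : ℕ) (P : ℕ → Bool) : Bool :=
  Nat.blt s 56 && ((!(Nat.beq (s % 8) 0) && P (s + 7)) || (!(Nat.beq (s % 8) 7) && P (s + 9)))

/-- all forward diagonal neighbours of `s` satisfy `P` -/
def allUp (s : ℕ) (P : ℕ → Bool) : Bool :=
  Nat.ble 56 s || ((Nat.beq (s % 8) 0 || P (s + 7)) && (Nat.beq (s % 8) 7 || P (s + 9)))

/-- some diagonal neighbour of `s` satisfies `P` -/
def anyNbr (s : ℕ) (P : ℕ → Bool) : Bool :=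
  (Nat.ble 8 s && ((!(Nat.beq (s % 8) 0) && P (s - 9)) || (!(Nat.beq (s % 8) 7) && P (s - 7)))) ||
    anyUp s P

/-- all diagonal neighbours of `s` satisfy `P` -/
def allNbr (s : ℕ) (P : ℕ → Bool) : Bool :=
  (Nat.blt s 8 || ((Nat.beq (s % 8) 0 || P (s - 9)) && (Nat.beq (s % 8) 7 || P (s - 7)))) &&
    allUp s P

/-- all bits `s` of `g` satisfy `P` (and there are at most `n` of them) -/
def allBits (P : ℕ → Bool) : ℕ → ℕ → Bool
  | 0, g => Nat.beq g 0
  | n + 1, g => Nat.beq g 0 || (P (Nat.log2 g) && allBits P n (Nat.xor g (2 ^ (Nat.log2 g))))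

/-- some bit of `g` satisfies `P` -/
def anyBits (g₀ : ℕ) (P : ℕ → Bool) : ℕ → ℕ → Bool
  | 0, _ => false
  | n + 1, g => (tb g₀ (Nat.log2 g) && P (Nat.log2 g)) ||
      anyBits g₀ P n (Nat.xor g (2 ^ (Nat.log2 g)))

/-- the geese mask after the move `s → t` -/
def upd (g s t : ℕ) : ℕ := Nat.lor (Nat.xor g (2 ^ s)) (2 ^ t)

/-- squares that can reach `x` by goose moves -/
def cone (x : ℕ) : ℕ := Nat.shiftRight coneData (64 * x) % 18446744073709551616

/-- size of zone `k` (ranks `0, ..., k`) -/
def zn (k : ℕ) : ℕ := 8 * (k + 1)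

def safe (k g u : ℕ) : Bool :=
  Nat.beq (Nat.land g (cone u)) 0 &&
    anyNbr u (fun v => Nat.blt v (zn k) && Nat.beq (Nat.land g (cone v)) 0)

/-- look for `(g, u)` in the zones `k, k - 1, ..., 1` -/
noncomputable def down (T : KeyTree) : ℕ → ℕ → ℕ → Bool
  | 0, _, _ => false
  | k + 1, g, u => mem (key (k + 1) g u) T || (Nat.blt u (zn k) && down T k (g % 2 ^ zn k) u)

noncomputable def okF (T : KeyTree) (k g u : ℕ) : Bool := safe k g u || down T k g u

noncomputable def okM (T : KeyTree) (h g u : ℕ) : Bool := mem (key (8 + h) g u) T || okF T 7 g u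

/-- a fox reply inside zone `k` -/
noncomputable def repF (T : KeyTree) (k g f : ℕ) : Bool :=
  anyNbr f (fun t => Nat.blt t (zn k) && (!(tb g t) && okF T k g t))

noncomputable def repM (T : KeyTree) (h g f : ℕ) : Bool :=
  (Nat.blt h 3 && okM T (h + 1) g f) || anyNbr f (fun t => !(tb g t) && okM T h g t)

noncomputable def checkF (T : KeyTree) (k g f : ℕ) : Bool :=
  Nat.blt f (zn k) && (repF T k g f &&
    allBits (fun s => allUp s (fun t => tb g t || (Nat.beq t f ||
      repF T k (upd g s t % 2 ^ zn k) f))) 4 g)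

noncomputable def checkM (T : KeyTree) (h g f : ℕ) : Bool :=
  (Nat.blt 0 h || repM T h g f) &&
    allBits (fun s => allUp s (fun t => tb g t || (Nat.beq t f || repM T h (upd g s t) f))) 4 g

noncomputable def checkC (T : KeyTree) (x : ℕ) : Bool :=
  let g := x % 18446744073709551616
  let r := x / 18446744073709551616
  let f := r % 64
  let l := r / 64
  bif Nat.blt l 8 then checkF T l g f else (Nat.blt l 12 && checkM T (l - 8) g f)

noncomputable def anyGoose (T : KeyTree) (h g f : ℕ) : Bool :=
  anyBits g (fun s => anyUp s (fun t => !(tb g t) && (!(Nat.beq t f) &&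
    mem (key h (upd g s t) f) T))) 4 g

noncomputable def checkB' (T : KeyTree) (h g f : ℕ) : Bool :=
  allNbr f (fun t => tb g t || ((Nat.beq h 0 && mem (key 0 g t) T) || anyGoose T h g t)) &&
    (Nat.ble 3 h || anyGoose T (h + 1) g f)

noncomputable def checkB (T : KeyTree) (x : ℕ) : Bool :=
  let g := x % 18446744073709551616
  let r := x / 18446744073709551616
  checkB' T (r / 64) g (r % 64)

end Pool.Agent.H51.FoxGeese
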