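import Pool.Agent.H51.FoxGeeseCheck

/-! Kernel evaluation of the certificate checks. -/

set_option autoImplicit false
set_option maxRecDepth 100000

namespace Pool.Agent.H51.FoxGeese

theorem certB_ok : allKeys (checkB certB) certB = true := by decide +kernel

theorem certC_ok : allKeys (checkC certC) certC = true := by decide +kernel

theorem startB : mem (key 0 85 59) certB = true := by decide +kernel

theorem startC : mem (key 8 85 59) certC = true := by decide +kernel

end Pool.Agent.H51.FoxGeese
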